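import Mathlib
import Pool.Agent.Helper35.URFin

set_option autoImplicit false

namespace Pool.Agent.Results.MP_c4941a_co.CurrieMol

/-- The factor of length `n` of the right-infinite word `w` that starts at position `i`. -/
def factor {A : Type} (w : ℕ → A) (i n : ℕ) : List A := (List.range n).map (fun j => w (i + j))

/-- `u` is an undirected `β`-power: `u = v x v'` with `v` nonempty, `v'` equal to `v` or to the
reversal of `v`, and `|v x v'| / |v x| = β`. -/
def IsUndirectedPower {A : Type} (β : ℝ) (u : List A) : Prop :=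
  ∃ v x v' : List A, v ≠ [] ∧ (v' = v ∨ v' = v.reverse) ∧ u = v ++ x ++ v' ∧
    ((v ++ x ++ v').length : ℝ) / ((v ++ x).length : ℝ) = β

/-- An infinite word is undirected `α`-free if none of its factors is an undirected `β`-power
for any `β ≥ α`. -/
def UndirectedFree {A : Type} (α : ℝ) (w : ℕ → A) : Prop :=
  ∀ β : ℝ, α ≤ β → ∀ i n : ℕ, ¬ IsUndirectedPower β (factor w i n)

/-- The set of all `j` such that some infinite word over a `j`-letter alphabet is undirected
`α`-free. -/
def FuSet (α : ℝ) : Set ℕ := {j | ∃ w : ℕ → Fin j, UndirectedFree α w}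

/-- The undirected repetition threshold: the infimum of the `α` in `(1,2]` with `F_u(α) = k`, where
`F_u(α)` is the least element of `FuSet α`. -/
noncomputable def RTu (k : ℕ) : ℝ := sInf {α : ℝ | 1 < α ∧ α ≤ 2 ∧ IsLeast (FuSet α) k}

open Pool.Agent.Helper35.UR in
theorem free_of_idx {A : Type} (α : ℝ) (w : ℕ → A)
    (h : ∀ i L t : ℕ, 1 ≤ L → L ≤ t → α ≤ ((t + L : ℕ) : ℝ) / (t : ℝ) →
      ¬ Rep w i L t ∧ ¬ RevRep w i L t) : UndirectedFree α w := by
  rintro β hβ i n ⟨v, x, v', hv, hv', hu, hlen⟩
  have hvl : v'.length = v.length := by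
    rcases hv' with rfl | rfl
    · rfl
    · exact List.length_reverse
  have hL : 1 ≤ v.length := List.length_pos_iff.mpr hv
  have hn : n = v.length + x.length + v.length := by
    have := congrArg List.length hu
    simp only [factor, List.length_map, List.length_range, List.length_append] at this
    omega
  have hget : ∀ j, j < n → (factor w i n)[j]? = some (w (i + j)) := by
    intro j hj
    simp [factor, hj]
  have hV : ∀ j, j < v.length → v[j]? = some (w (i + j)) := by
    intro j hj
    rw [← hget j (by omega), hu, List.append_assoc, List.getElem?_append_left hj]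
  have hV' : ∀ j, j < v.length → v'[j]? = some (w (i + (v.length + x.length) + j)) := by
    intro j hj
    rw [Nat.add_assoc i, ← hget (v.length + x.length + j) (by omega), hu,
      List.getElem?_append_right (by simp only [List.length_append]; omega)]
    congr 1
    simp only [List.length_append]
    omega
  have hratio : α ≤ ((v.length + x.length + v.length : ℕ) : ℝ) / ((v.length + x.length : ℕ) : ℝ) := by
    simp only [List.length_append, hvl] at hlen
    rw [hlen]
    exact hβ
  obtain ⟨h1, h2⟩ := h i v.length (v.length + x.length) hL (by omega) hratio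
  rcases hv' with rfl | rfl
  · apply h1
    intro j hj
    have a := hV j hj
    have b := hV' j hj
    rw [a] at b
    exact (Option.some.inj b).symm
  · apply h2
    intro j hj
    have a := hV (v.length - 1 - j) (by omega)
    have b := hV' j hj
    rw [List.getElem?_reverse hj, a] at b
    exact (Option.some.inj b).symm

open Pool.Agent.Helper35.UR in
theorem idx_of_free {A : Type} (α : ℝ) (w : ℕ → A) (h : UndirectedFree α w)
    (i L t : ℕ) (hL : 1 ≤ L) (hLt : L ≤ t) (hα : α ≤ ((t + L : ℕ) : ℝ) / (t : ℝ)) :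
    ¬ Rep w i L t ∧ ¬ RevRep w i L t := by
  have hsplit : factor w i (t + L) = factor w i L ++ factor w (i + L) (t - L) ++ factor w (i + t) L := by
    apply List.ext_getElem
    · simp only [factor, List.length_append, List.length_map, List.length_range]; omega
    · intro j h1 h2
      simp only [factor, List.length_map, List.length_range] at h1
      simp only [List.getElem_append, factor, List.length_map, List.length_range, List.getElem_map,
        List.getElem_range, List.length_append]
      split_ifs with c1 c2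
      · rfl
      · congr 1; omega
      · congr 1; omega
  have hne : factor w i L ≠ [] := by
    intro h0
    have := congrArg List.length h0
    simp [factor] at this
    omega
  have hlen : ((factor w i L ++ factor w (i + L) (t - L) ++ factor w (i + t) L).length : ℝ) /
      ((factor w i L ++ factor w (i + L) (t - L)).length : ℝ) = ((t + L : ℕ) : ℝ) / (t : ℝ) := by
    simp only [factor, List.length_append, List.length_map, List.length_range]
    rw [show L + (t - L) = t by omega]
  constructor
  · intro hr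
    apply h _ hα i (t + L)
    refine ⟨factor w i L, factor w (i + L) (t - L), factor w (i + t) L, hne, Or.inl ?_, hsplit, hlen⟩
    apply List.ext_getElem
    · simp [factor]
    · intro j h1 h2
      simp only [factor, List.length_map, List.length_range] at h1
      simp only [factor, List.getElem_map, List.getElem_range]
      exact hr j h1
  · intro hr
    apply h _ hα i (t + L)
    refine ⟨factor w i L, factor w (i + L) (t - L), factor w (i + t) L, hne, Or.inr ?_, hsplit, hlen⟩
    apply List.ext_getElem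
    · simp [factor]
    · intro j h1 h2
      simp only [factor, List.length_map, List.length_range] at h1
      simp only [factor, List.getElem_map, List.getElem_range, List.getElem_reverse, List.length_map,
        List.length_range]
      exact hr j h1

open Pool.Agent.Helper35.UR in
theorem mono {α : ℝ} {j k : ℕ} (hjk : j ≤ k) (h : j ∈ FuSet α) : k ∈ FuSet α := by
  obtain ⟨w, hw⟩ := h
  refine ⟨fun n => Fin.castLE hjk (w n), ?_⟩
  apply free_of_idx
  intro i L t h1 h2 h3
  obtain ⟨a, b⟩ := idx_of_free α w hw i L t h1 h2 h3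
  constructor
  · intro hr
    exact a (fun n hn => Fin.castLE_injective hjk (hr n hn))
  · intro hr
    exact b (fun n hn => Fin.castLE_injective hjk (hr n hn))

open Pool.Agent.Helper35.UR in
/-- no word over `k` letters is undirected `α`-free for `α ≤ (k-1)/(k-2)` -/
theorem not_mem {α : ℝ} {k : ℕ} (hk : 4 ≤ k) (hα : α ≤ ((k : ℝ) - 1) / ((k : ℝ) - 2)) :
    k ∉ FuSet α := by
  rintro ⟨w, hw⟩
  obtain ⟨i, L, t, h1, h2, h3, h4⟩ := lower k hk w
  have hratio : α ≤ ((t + L : ℕ) : ℝ) / (t : ℝ) := by
    refine hα.trans ?_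
    obtain ⟨M, rfl⟩ : ∃ M, k = M + 2 := ⟨k - 2, by omega⟩
    have ht : (0 : ℝ) < (t : ℝ) := by exact_mod_cast (by omega : 0 < t)
    have hM : (0 : ℝ) < (M : ℝ) := by exact_mod_cast (by omega : 0 < M)
    have h3' : (t : ℝ) ≤ (L : ℝ) * (M : ℝ) := by
      rw [show M + 2 - 2 = M by omega] at h3
      exact_mod_cast h3
    push_cast
    rw [show (M : ℝ) + 2 - 1 = M + 1 by ring, show (M : ℝ) + 2 - 2 = M by ring,
      div_le_div_iff₀ hM ht]
    nlinarith
  obtain ⟨a, b⟩ := idx_of_free α w hw i L t h1 h2 hratio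
  rcases h4 with h4 | h4
  · exact a h4
  · exact b h4

open Pool.Agent.Helper35.UR in
/-- for `k ≥ 22` and `α > (k-1)/(k-2)` some word over `k` letters is undirected `α`-free -/
theorem mem {α : ℝ} {k : ℕ} (hk : 22 ≤ k) (hα : ((k : ℝ) - 1) / ((k : ℝ) - 2) < α) :
    k ∈ FuSet α := by
  obtain ⟨w, hw⟩ := upper k hk
  refine ⟨w, free_of_idx α w ?_⟩
  intro i L t h1 h2 h3
  apply hw i L t h1 h2
  by_contra hcon
  obtain ⟨M, rfl⟩ : ∃ M, k = M + 2 := ⟨k - 2, by omega⟩
  rw [show M + 2 - 2 = M by omega] at hcon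
  have ht : (0 : ℝ) < (t : ℝ) := by exact_mod_cast (by omega : 0 < t)
  have hM : (0 : ℝ) < (M : ℝ) := by exact_mod_cast (by omega : 0 < M)
  have h4 : (L : ℝ) * (M : ℝ) ≤ (t : ℝ) := by
    have : L * M ≤ t := by omega
    exact_mod_cast this
  have h5 := lt_of_lt_of_le hα h3
  push_cast at h5
  rw [show (M : ℝ) + 2 - 1 = M + 1 by ring, show (M : ℝ) + 2 - 2 = M by ring,
      div_lt_div_iff₀ hM ht] at h5
  nlinarith

/-- The Currie-Mol conjecture for all `k ≥ 22`: `k` letters suffice for undirected `α`-freeness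
exactly when `α > (k-1)/(k-2)`, and the undirected repetition threshold is `(k-1)/(k-2)`. -/
theorem result : ∀ k : ℕ, 22 ≤ k →
    (∀ α : ℝ, (∃ w : ℕ → Fin k, UndirectedFree α w) ↔ ((k : ℝ) - 1) / ((k : ℝ) - 2) < α) ∧
    RTu k = ((k : ℝ) - 1) / ((k : ℝ) - 2) := by
  intro k hk
  have hiff : ∀ α : ℝ, k ∈ FuSet α ↔ ((k : ℝ) - 1) / ((k : ℝ) - 2) < α := by
    intro α
    constructor
    · intro h
      by_contra hcon
      exact not_mem (by omega) (not_lt.mp hcon) h
    · exact mem hk
  refine ⟨hiff, ?_⟩
  have hk' : (22 : ℝ) ≤ (k : ℝ) := by exact_mod_cast hk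
  have h2 : (0 : ℝ) < (k : ℝ) - 2 := by linarith
  have h3 : (0 : ℝ) < (k : ℝ) - 3 := by linarith
  have hlt : ((k : ℝ) - 1) / ((k : ℝ) - 2) < ((k : ℝ) - 2) / ((k : ℝ) - 3) := by
    rw [div_lt_div_iff₀ h2 h3]; nlinarith
  have h1 : 1 < ((k : ℝ) - 1) / ((k : ℝ) - 2) := by
    rw [lt_div_iff₀ h2]; linarith
  have h22 : ((k : ℝ) - 2) / ((k : ℝ) - 3) ≤ 2 := by
    rw [div_le_iff₀ h3]; linarith
  have hsub : ∀ α : ℝ, ((k : ℝ) - 1) / ((k : ℝ) - 2) < α → α ≤ ((k : ℝ) - 2) / ((k : ℝ) - 3) →
      α ∈ {α : ℝ | 1 < α ∧ α ≤ 2 ∧ IsLeast (FuSet α) k} := by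
    intro α ha hb
    refine ⟨by linarith, by linarith, (hiff α).mpr ha, ?_⟩
    intro j hj
    by_contra hcon
    have hm : k - 1 ∈ FuSet α := mono (by omega) hj
    refine not_mem (k := k - 1) (by omega) ?_ hm
    have hc : ((k - 1 : ℕ) : ℝ) = (k : ℝ) - 1 := by
      rw [Nat.cast_sub (by omega)]; norm_num
    rw [hc, show (k : ℝ) - 1 - 1 = (k : ℝ) - 2 by ring, show (k : ℝ) - 1 - 2 = (k : ℝ) - 3 by ring]
    exact hb
  unfold RTu
  apply csInf_eq_of_forall_ge_of_forall_gt_exists_lt
  · exact ⟨((k : ℝ) - 2) / ((k : ℝ) - 3), hsub _ hlt (le_refl _)⟩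
  · rintro α ⟨-, -, ha, -⟩
    exact ((hiff α).mp ha).le
  · intro z hz
    refine ⟨min ((((k : ℝ) - 1) / ((k : ℝ) - 2) + z) / 2) (((k : ℝ) - 2) / ((k : ℝ) - 3)), hsub _ ?_ ?_, ?_⟩
    · rw [lt_min_iff]
      exact ⟨by linarith, hlt⟩
    · exact min_le_right _ _
    · refine lt_of_le_of_lt (min_le_left _ _) ?_
      linarith

end Pool.Agent.Results.MP_c4941a_co.CurrieMol
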